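import Mathlib
import Pool.Agent.LawsFI.Core
import Pool.Agent.LawsFK.Grp

set_option autoImplicit false

/-!
There is a variety of groups, contained in the variety `𝔄𝔑₄` of all groups having an abelian normal
subgroup with quotient nilpotent of class at most four, which is not finitely based.

The variety is defined by the laws (left-normed commutators)
`[[z₀,z₁,z₂,z₃,z₄],[z₅,z₆,z₇,z₈,z₉]]` (which says that the group is in `𝔄𝔑₄`) and, for `q ≥ 0`,
`[[z₀,z₁,z₂,z₃,z₄], [x₀,x₁,a₀,a₀], [x₁,x₂,a₁,a₁], …, [x_q,x₀,a_q,a_q]]`.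
-/

namespace Pool.Agent.Results.MP_3fd305_al.NotFinitelyBased

open Pool.Agent.LawsFI (F cm map_cm)
open Pool.Agent.LawsFK (e5 map_e5 van wrd GN GN_van GN_wrd GN_not_wrd map_van)

open scoped commutatorElement

universe u

/-- the word `w` is a law of the group `G`: its value is trivial under every substitution of
elements of `G` for the letters -/
def IsLaw (w : FreeGroup ℕ) (G : Type u) [Group G] : Prop :=
  ∀ f : FreeGroup ℕ →* G, f w = 1

/-- `G` belongs to the variety defined by the set `W` of words -/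
def InVariety (W : Set (FreeGroup ℕ)) (G : Type u) [Group G] : Prop :=
  ∀ w ∈ W, IsLaw w G

/-- `G` belongs to the product variety `𝔄𝔑_c`: it has an abelian normal subgroup `K` such that
`G ⧸ K` is nilpotent of class at most `c` -/
def InAN (c : ℕ) (G : Type u) [Group G] : Prop :=
  ∃ K : Subgroup G, ∃ _ : K.Normal, (∀ x ∈ K, ∀ y ∈ K, x * y = y * x) ∧
    (⊤ : Subgroup (G ⧸ K)).lowerCentralSeries c = ⊥

/-! ### verbal subgroups -/

/-- the verbal subgroup of `F` defined by a set of words -/
def VS (W : Set F) : Subgroup F :=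
  Subgroup.closure {v : F | ∃ s ∈ W, ∃ ψ : F →* F, ψ s = v}

theorem VS_mono {W W' : Set F} (h : W ⊆ W') : VS W ≤ VS W' := by
  apply Subgroup.closure_mono
  rintro v ⟨s, hs, ψ, rfl⟩
  exact ⟨s, h hs, ψ, rfl⟩

instance VS_normal (W : Set F) : (VS W).Normal := by
  unfold VS
  constructor
  intro n hn g
  induction hn using Subgroup.closure_induction with
  | mem x hx =>
    obtain ⟨s, hs, ψ, rfl⟩ := hx
    apply Subgroup.subset_closure
    refine ⟨s, hs, (MulAut.conj g).toMonoidHom.comp ψ, ?_⟩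
    simp
  | one => simp
  | mul x y _ _ hx hy =>
    have : g * (x * y) * g⁻¹ = (g * x * g⁻¹) * (g * y * g⁻¹) := by group
    rw [this]
    exact Subgroup.mul_mem _ hx hy
  | inv x _ hx =>
    have : g * x⁻¹ * g⁻¹ = (g * x * g⁻¹)⁻¹ := by group
    rw [this]
    exact Subgroup.inv_mem _ hx

/-- the words of `W` are laws of `F ⧸ VS W` -/
theorem quot_in (W : Set F) : InVariety W (F ⧸ VS W) := by
  intro w hw f
  have hs : Function.Surjective (QuotientGroup.mk' (VS W)) := QuotientGroup.mk'_surjective _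
  choose r hr using fun i : ℕ => hs (f (FreeGroup.of i))
  have hf : (QuotientGroup.mk' (VS W)).comp (FreeGroup.lift r) = f := by
    ext i
    simpa using hr i
  rw [← hf, MonoidHom.comp_apply]
  have : FreeGroup.lift r w ∈ VS W := Subgroup.subset_closure ⟨w, hw, _, rfl⟩
  simpa using this

/-- a consequence of laws is a law -/
theorem law_of_mem {W : Set F} {w : F} (hw : w ∈ VS W) {G : Type u} [Group G]
    (hG : InVariety W G) : IsLaw w G := by
  intro f
  have : VS W ≤ f.ker := by
    unfold VS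
    rw [Subgroup.closure_le]
    rintro _ ⟨s, hs, ψ, rfl⟩
    exact hG s hs (f.comp ψ)
  exact this hw

/-! ### the law `[[z₀,…,z₄],[z₅,…,z₉]]` and `𝔄𝔑₄` -/

section an

variable {G : Type u} [Group G]

/-- left-normed commutators of weight `n+1` -/
def Lc (G : Type u) [Group G] : ℕ → Set G
  | 0 => Set.univ
  | (n+1) => {v | ∃ x ∈ Lc G n, ∃ y : G, v = cm x y}

theorem Lc_conj (n : ℕ) (g x : G) (hx : x ∈ Lc G n) : g * x * g⁻¹ ∈ Lc G n := by
  induction n generalizing x with
  | zero => exact Set.mem_univ _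
  | succ n ih =>
    obtain ⟨a, ha, b, rfl⟩ := hx
    refine ⟨g * a * g⁻¹, ih a ha, g * b * g⁻¹, ?_⟩
    unfold cm; group

theorem closure_Lc_conj (n : ℕ) (g x : G) (hx : x ∈ Subgroup.closure (Lc G n)) :
    g * x * g⁻¹ ∈ Subgroup.closure (Lc G n) := by
  induction hx using Subgroup.closure_induction with
  | mem x hx => exact Subgroup.subset_closure (Lc_conj n g x hx)
  | one => simp
  | mul x y _ _ hx hy =>
    have : g * (x * y) * g⁻¹ = (g * x * g⁻¹) * (g * y * g⁻¹) := by group
    rw [this]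
    exact Subgroup.mul_mem _ hx hy
  | inv x _ hx =>
    have : g * x⁻¹ * g⁻¹ = (g * x * g⁻¹)⁻¹ := by group
    rw [this]
    exact Subgroup.inv_mem _ hx

theorem lcs_le (n : ℕ) : (⊤ : Subgroup G).lowerCentralSeries n ≤ Subgroup.closure (Lc G n) := by
  induction n with
  | zero =>
    intro x _
    exact Subgroup.subset_closure (Set.mem_univ x)
  | succ n ih =>
    rw [Subgroup.lowerCentralSeries_succ, Subgroup.commutator_le]
    intro p hp q _
    have hp' := ih hp
    clear hp
    induction hp' using Subgroup.closure_induction with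
    | mem x hx => exact Subgroup.subset_closure ⟨x, hx, q, by simp [cm, commutatorElement_def]⟩
    | one => simp
    | mul x y _ _ hx hy =>
      have : ⁅x * y, q⁆ = (x * ⁅y, q⁆ * x⁻¹) * ⁅x, q⁆ := by
        simp only [commutatorElement_def]; group
      rw [this]
      exact Subgroup.mul_mem _ (closure_Lc_conj _ _ _ hy) hx
    | inv x _ hx =>
      have : ⁅x⁻¹, q⁆ = (x⁻¹ * ⁅x, q⁆ * x⁻¹⁻¹)⁻¹ := by
        simp only [commutatorElement_def]; group
      rw [this]
      exact Subgroup.inv_mem _ (closure_Lc_conj _ _ _ hx)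

theorem Lc_four {x : G} (hx : x ∈ Lc G 4) : ∃ z : ℕ → G, x = e5 z := by
  obtain ⟨x3, ⟨x2, ⟨x1, ⟨x0, _, y1, rfl⟩, y2, rfl⟩, y3, rfl⟩, y4, rfl⟩ := hx
  refine ⟨fun i => match i with
    | 0 => x0
    | 1 => y1
    | 2 => y2
    | 3 => y3
    | _ => y4, rfl⟩

theorem van_comm (h : IsLaw van G) (z z' : ℕ → G) : e5 z * e5 z' = e5 z' * e5 z := by
  let f : F →* G := FreeGroup.lift (fun i => if i < 5 then z i else z' (i-5))
  have h1 := h f
  rw [map_van] at h1
  have e1 : e5 (fun i => f (FreeGroup.of i)) = e5 z := by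
    simp [e5, f]
  have e2 : e5 (fun i => f (FreeGroup.of (5+i))) = e5 z' := by
    simp [e5, f]
  rw [e1, e2] at h1
  unfold cm at h1
  rw [mul_inv_eq_one, mul_inv_eq_iff_eq_mul] at h1
  exact h1

theorem van_an (h : IsLaw van G) : InAN 4 G := by
  let K : Subgroup G := Subgroup.closure {x | ∃ z : ℕ → G, x = e5 z}
  have hK : K.Normal := by
    constructor
    intro n hn g
    change n ∈ Subgroup.closure {x | ∃ z : ℕ → G, x = e5 z} at hn
    change g * n * g⁻¹ ∈ Subgroup.closure {x | ∃ z : ℕ → G, x = e5 z}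
    induction hn using Subgroup.closure_induction with
    | mem x hx =>
      obtain ⟨z, rfl⟩ := hx
      apply Subgroup.subset_closure
      refine ⟨fun i => g * z i * g⁻¹, ?_⟩
      exact map_e5 (MulAut.conj g).toMonoidHom z
    | one => simp
    | mul x y _ _ hx hy =>
      have : g * (x * y) * g⁻¹ = (g * x * g⁻¹) * (g * y * g⁻¹) := by group
      rw [this]
      exact Subgroup.mul_mem _ hx hy
    | inv x _ hx =>
      have : g * x⁻¹ * g⁻¹ = (g * x * g⁻¹)⁻¹ := by group
      rw [this]
      exact Subgroup.inv_mem _ hx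
  refine ⟨K, hK, ?_, ?_⟩
  · have key : K ≤ Subgroup.centralizer {x | ∃ z : ℕ → G, x = e5 z} := by
      change Subgroup.closure {x | ∃ z : ℕ → G, x = e5 z} ≤ _
      rw [Subgroup.closure_le]
      rintro _ ⟨z, rfl⟩
      rw [SetLike.mem_coe, Subgroup.mem_centralizer_iff]
      rintro _ ⟨z', rfl⟩
      exact van_comm h z' z
    have key2 : K ≤ Subgroup.centralizer (K : Set G) := by
      change Subgroup.closure {x | ∃ z : ℕ → G, x = e5 z} ≤ _
      rw [Subgroup.closure_le]
      rintro _ ⟨z, rfl⟩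
      rw [SetLike.mem_coe, Subgroup.mem_centralizer_iff]
      intro y hy
      have := key hy
      rw [Subgroup.mem_centralizer_iff] at this
      exact (this (e5 z) ⟨z, rfl⟩).symm
    intro x hx y hy
    have := key2 hx
    rw [Subgroup.mem_centralizer_iff] at this
    exact (this y hy).symm
  · rw [eq_bot_iff]
    refine (lcs_le 4).trans ?_
    rw [Subgroup.closure_le]
    intro x hx
    obtain ⟨z, rfl⟩ := Lc_four hx
    have hs : Function.Surjective (QuotientGroup.mk' K) := QuotientGroup.mk'_surjective _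
    choose r hr using fun i : ℕ => hs (z i)
    have hz : z = fun i => QuotientGroup.mk' K (r i) := by
      funext i; exact (hr i).symm
    rw [hz, ← map_e5, SetLike.mem_coe, Subgroup.mem_bot]
    have : e5 r ∈ K := Subgroup.subset_closure ⟨r, rfl⟩
    simpa using this

end an

/-! ### the variety -/

/-- the defining laws of the variety -/
def WS : Set F := {w | w = van ∨ ∃ q, w = wrd q}

/-- finitely many of the defining laws -/
def WN (N : ℕ) : Set F := {w | w = van ∨ ∃ q, q < N ∧ w = wrd q}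

theorem WN_mono {N N' : ℕ} (h : N ≤ N') : WN N ⊆ WN N' := by
  rintro w (rfl | ⟨q, hq, rfl⟩)
  · exact Or.inl rfl
  · exact Or.inr ⟨q, lt_of_lt_of_le hq h, rfl⟩

theorem mem_VS_WN {w : F} (hw : w ∈ VS WS) : ∃ N, w ∈ VS (WN N) := by
  unfold VS at hw
  induction hw using Subgroup.closure_induction with
  | mem x hx =>
    obtain ⟨s, hs, ψ, rfl⟩ := hx
    rcases hs with rfl | ⟨q, rfl⟩
    · exact ⟨0, Subgroup.subset_closure ⟨van, Or.inl rfl, ψ, rfl⟩⟩
    · exact ⟨q+1, Subgroup.subset_closure ⟨wrd q, Or.inr ⟨q, Nat.lt_succ_self q, rfl⟩, ψ, rfl⟩⟩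
  | one => exact ⟨0, Subgroup.one_mem _⟩
  | mul x y _ _ hx hy =>
    obtain ⟨N, hN⟩ := hx
    obtain ⟨N', hN'⟩ := hy
    exact ⟨max N N', Subgroup.mul_mem _ (VS_mono (WN_mono (le_max_left _ _)) hN)
      (VS_mono (WN_mono (le_max_right _ _)) hN')⟩
  | inv x _ hx =>
    obtain ⟨N, hN⟩ := hx
    exact ⟨N, Subgroup.inv_mem _ hN⟩

theorem finite_mem {S : Set F} (hS : S.Finite) (h : ∀ w ∈ S, w ∈ VS WS) :
    ∃ N, ∀ w ∈ S, w ∈ VS (WN N) := by
  choose! r hr using fun w (hw : w ∈ S) => mem_VS_WN (h w hw)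
  obtain ⟨N, hN⟩ := (hS.image r).bddAbove
  refine ⟨N, fun w hw => VS_mono (WN_mono (hN (Set.mem_image_of_mem r hw))) (hr w hw)⟩

theorem ulift_iff (W : Set F) (G : Type) [Group G] :
    InVariety W (ULift.{u} G) ↔ InVariety W G := by
  constructor
  · intro h w hw f
    have h1 := h w hw ((MulEquiv.ulift (α := G)).symm.toMonoidHom.comp f)
    have h2 := congrArg (MulEquiv.ulift (α := G)) h1
    simpa using h2
  · intro h w hw f
    have h1 := h w hw ((MulEquiv.ulift (α := G)).toMonoidHom.comp f)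
    apply (MulEquiv.ulift (α := G)).injective
    simpa using h1

/-- **Not every `𝔄𝔑`-variety is finitely based.**  There is a set `W` of words such that every group
in the variety defined by `W` has an abelian normal subgroup with quotient nilpotent of class at
most `4`, and no finite set of words defines the same variety. -/
theorem result : ∃ W : Set (FreeGroup ℕ),
    (∀ (G : Type u) [Group G], InVariety W G → InAN 4 G) ∧
    ¬ ∃ S : Set (FreeGroup ℕ), S.Finite ∧
      ∀ (G : Type u) [Group G], InVariety S G ↔ InVariety W G := by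
  refine ⟨WS, fun G _ h => van_an (h van (Or.inl rfl)), ?_⟩
  rintro ⟨S, hS, hiff⟩
  have hiff0 : ∀ (G : Type) [Group G], InVariety S G ↔ InVariety WS G := by
    intro G _
    rw [← ulift_iff.{u} S G, ← ulift_iff.{u} WS G]
    exact hiff _
  have h1 : ∀ w ∈ S, w ∈ VS WS := by
    intro w hw
    have h2 := (hiff0 (F ⧸ VS WS)).mpr (quot_in WS) w hw (QuotientGroup.mk' (VS WS))
    simpa using h2
  obtain ⟨N, hN⟩ := finite_mem hS h1
  have h3 : InVariety (WN N) (GN (N+1+1)) := by
    rintro w (rfl | ⟨q, hq, rfl⟩) f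
    · exact GN_van _ f
    · exact GN_wrd (by omega) f
  have h4 : InVariety S (GN (N+1+1)) := fun w hw => law_of_mem (hN w hw) h3
  have h5 := (hiff0 _).mp h4
  obtain ⟨φ, hφ⟩ := GN_not_wrd (N := N+1) (by omega)
  exact hφ (h5 (wrd (N+1)) (Or.inr ⟨N+1, rfl⟩) φ)

end Pool.Agent.Results.MP_3fd305_al.NotFinitelyBased
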